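import Mathlib

set_option autoImplicit false

namespace Pool.Agent.Results.MP_c3a542_nt.NoLimit

open Filter Topology

structure Sys (a c : ℕ → ℕ) : Prop where
  a1 : a 1 = 1
  c1 : c 1 = 1
  ra : ∀ m, 1 ≤ m → 1 ≤ a m ∧ a m ≤ m
  rc : ∀ m, 1 ≤ m → 1 ≤ c m ∧ c m ≤ m
  hc : ∀ m, 2 ≤ m → c m = a (a m) + a (m + 1 - a m)
  ha : ∀ m, 1 ≤ m → a (m + 1) + 1 = a (c m) + c (m + 1 - c m)

variable {a c : ℕ → ℕ}

lemma Sys.slow (S : Sys a c) (m : ℕ) (hm : 1 ≤ m) :
    (a m ≤ a (m + 1) ∧ a (m + 1) ≤ a m + 1) ∧ (c m ≤ c (m + 1) ∧ c (m + 1) ≤ c m + 1) := by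
  induction m using Nat.strong_induction_on with
  | _ m ih =>
    have a2 : a 2 = 1 := by
      have := S.ha 1 le_rfl
      simp only [S.c1, S.a1, Nat.reduceAdd, Nat.add_one_sub_one] at this
      omega
    have hA : a m ≤ a (m + 1) ∧ a (m + 1) ≤ a m + 1 := by
      rcases Nat.eq_or_lt_of_le hm with rfl | hm2
      · simp [S.a1, a2]
      · obtain ⟨k, rfl⟩ : ∃ k, m = k + 1 := ⟨m - 1, by omega⟩
        have h1 := S.ha k (by omega)
        have h2 := S.ha (k + 1) (by omega)
        have h3 := (ih k (by omega) (by omega)).2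
        have r1 := S.rc k (by omega)
        rcases Nat.eq_or_lt_of_le h3.1 with h | h
        · rw [← h, show k + 1 + 1 - c k = (k + 1 - c k) + 1 by omega] at h2
          have := (ih (k + 1 - c k) (by omega) (by omega)).2
          omega
        · rw [show c (k + 1) = c k + 1 by omega, show k + 1 + 1 - (c k + 1) = k + 1 - c k by omega] at h2
          have := (ih (c k) (by omega) (by omega)).1
          omega
    refine ⟨hA, ?_⟩
    rcases Nat.eq_or_lt_of_le hm with rfl | hm2
    · have := S.hc 2 le_rfl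
      simp only [a2, S.a1, Nat.reduceAdd, Nat.reduceSub] at this
      simp [S.c1, this]
    · have h1 := S.hc m (by omega)
      have h2 := S.hc (m + 1) (by omega)
      have r1 := S.ra m (by omega)
      have slowa : ∀ j, 1 ≤ j → j ≤ m → a j ≤ a (j + 1) ∧ a (j + 1) ≤ a j + 1 := by
        intro j hj hjm
        rcases Nat.eq_or_lt_of_le hjm with rfl | h
        · exact hA
        · exact (ih j h hj).1
      rcases Nat.eq_or_lt_of_le hA.1 with h | h
      · rw [← h, show m + 1 + 1 - a m = (m + 1 - a m) + 1 by omega] at h2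
        have := slowa (m + 1 - a m) (by omega) (by omega)
        omega
      · rw [show a (m + 1) = a m + 1 by omega, show m + 1 + 1 - (a m + 1) = m + 1 - a m by omega] at h2
        have := slowa (a m) (by omega) (by omega)
        omega

lemma Sys.lip (S : Sys a c) {i j : ℕ} (hi : 1 ≤ i) (hij : i ≤ j) :
    (a i ≤ a j ∧ a j + i ≤ a i + j) ∧ (c i ≤ c j ∧ c j + i ≤ c i + j) := by
  induction j, hij using Nat.le_induction with
  | base => simp
  | succ j hj ih =>
    have := S.slow j (by omega)
    omega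

def FA (a c : ℕ → ℕ) (P β : ℕ) : Prop :=
  a (P + 1) = β ∧ a (P + 2) = β + 1 ∧ a (P + 3) = β + 1 ∧ c (P + 1) = β + 1 ∧ c (P + 2) = β + 2 ∧
    c (P + 3) = β + 2

def FB (a c : ℕ → ℕ) (P β : ℕ) : Prop :=
  a P = β ∧ a (P + 1) = β ∧ a (P + 2) = β + 1 ∧ a (P + 3) = β + 1 ∧ c P = β + 1 ∧
    c (P + 1) = β + 1 ∧ c (P + 2) = β + 1

lemma Sys.stepA (S : Sys a c) {X Y βx βy : ℕ} (hX : 2 ≤ X) (hY : 2 ≤ Y) (hx : FB a c X βx)
    (hy : FB a c Y βy) (h : βx + βy = X + 1) : FA a c (Y + X + 1) (X + 1) := by
  obtain ⟨x0, x1, x2, x3, -, -, -⟩ := hx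
  obtain ⟨y0, y1, y2, y3, z0, z1, z2⟩ := hy
  have key : ∀ m, 2 ≤ m → a m ≤ X + 1 → m ≤ Y + a m → c m ≤ X + 1 ∧ m ≤ Y + c m := by
    intro m hm h1 h2
    have r := S.ra m (by omega)
    have e := S.hc m hm
    have l1 := (S.lip r.1 h1).1
    have l2 := (S.lip (i := m + 1 - a m) (j := Y + 1) (by omega) (by omega)).1
    omega
  have inv : ∀ m, 2 ≤ m → m ≤ Y + X + 1 → a m ≤ X + 1 ∧ m ≤ Y + a m := by
    intro m hm
    induction m, hm using Nat.le_induction with
    | base =>
      intro _
      have := S.ra 2 (by omega)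
      omega
    | succ m hm ih =>
      intro hle
      obtain ⟨h1, h2⟩ := ih (by omega)
      obtain ⟨h3, h4⟩ := key m hm h1 h2
      have r := S.rc m (by omega)
      have e := S.ha m (by omega)
      have l1 := (S.lip r.1 h3).1
      have l2 := (S.lip (i := m + 1 - c m) (j := Y + 1) (by omega) (by omega)).2
      by_cases hc : c m ≤ X
      · have l3 := (S.lip r.1 hc).1
        omega
      · have l4 := (S.lip (i := m + 1 - c m) (j := Y) (by omega) (by omega)).2
        omega
  obtain ⟨i1, i2⟩ := inv (Y + X + 1) (by omega) le_rfl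
  obtain ⟨i3, i4⟩ := key (Y + X + 1) (by omega) i1 i2
  have c0 : c (Y + X + 1) = X + 1 := by omega
  clear inv key i1 i2 i3 i4
  generalize hT : Y + X + 1 = T at c0 ⊢
  have hT2 : 2 ≤ T := by linarith
  have A1 : a (T + 1) = X + 1 := by
    have e := S.ha (T) (by linarith)
    rw [c0, show T + 1 - (X + 1) = Y + 1 from Nat.sub_eq_of_eq_add (by rw [← hT]; ring)] at e
    linarith
  have C1 : c (T + 1) = X + 2 := by
    have e := S.hc (T + 1) (by linarith)
    rw [A1, show T + 1 + 1 - (X + 1) = Y + 2 from Nat.sub_eq_of_eq_add (by rw [← hT]; ring)] at e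
    linarith
  have A2 : a (T + 2) = X + 2 := by
    have e := S.ha (T + 1) (by linarith)
    rw [C1, show T + 1 + 1 - (X + 2) = Y + 1 from Nat.sub_eq_of_eq_add (by rw [← hT]; ring), add_assoc T] at e
    simp only [Nat.reduceAdd] at e
    linarith
  have C2 : c (T + 2) = X + 3 := by
    have e := S.hc (T + 2) (by linarith)
    rw [A2, show T + 2 + 1 - (X + 2) = Y + 2 from Nat.sub_eq_of_eq_add (by rw [← hT]; ring)] at e
    linarith
  have A3 : a (T + 3) = X + 2 := by
    have e := S.ha (T + 2) (by linarith)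
    rw [C2, show T + 2 + 1 - (X + 3) = Y + 1 from Nat.sub_eq_of_eq_add (by rw [← hT]; ring), add_assoc T] at e
    simp only [Nat.reduceAdd] at e
    linarith
  have C3 : c (T + 3) = X + 3 := by
    have e := S.hc (T + 3) (by linarith)
    rw [A3, show T + 3 + 1 - (X + 2) = Y + 3 from Nat.sub_eq_of_eq_add (by rw [← hT]; ring)] at e
    linarith
  exact ⟨A1, A2, A3, C1, C2, C3⟩

lemma Sys.stepB (S : Sys a c) {X Y βx βy : ℕ} (hX : 2 ≤ X) (hY : 2 ≤ Y) (hx : FA a c X βx)
    (hy : FA a c Y βy) (h : βx + βy = X + 1) : FB a c (Y + X + 3) (X + 2) := by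
  obtain ⟨x1, x2, x3, -, -, -⟩ := hx
  obtain ⟨y1, y2, y3, z1, z2, z3⟩ := hy
  have inv : ∀ m, 2 ≤ m → m ≤ Y + X + 3 → a m ≤ X + 2 ∧ m ≤ Y + 1 + a m := by
    intro m hm
    induction m, hm using Nat.le_induction with
    | base =>
      intro _
      have := S.ra 2 (by omega)
      omega
    | succ m hm ih =>
      intro hle
      obtain ⟨h1, h2⟩ := ih (by omega)
      have r := S.ra m (by omega)
      have e := S.hc m hm
      have l1 := (S.lip r.1 h1).1
      have l2 := (S.lip (i := m + 1 - a m) (j := Y + 2) (by omega) (by omega)).1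
      have h3 : c m ≤ X + 2 := by
        by_cases hc : a m ≤ X + 1
        · have l3 := (S.lip r.1 hc).1
          omega
        · have l4 := (S.lip (i := m + 1 - a m) (j := Y + 1) (by omega) (by omega)).1
          omega
      have h4 : m ≤ Y + c m := by omega
      have r' := S.rc m (by omega)
      have e' := S.ha m (by omega)
      have l5 := (S.lip r'.1 h3).1
      have l6 := (S.lip (i := m + 1 - c m) (j := Y + 1) (by omega) (by omega)).2
      omega
  obtain ⟨i1, i2⟩ := inv (Y + X + 3) (by omega) le_rfl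
  have A0 : a (Y + X + 3) = X + 2 := by omega
  clear inv i1 i2
  generalize hT : Y + X + 3 = T at A0 ⊢
  have hT2 : 2 ≤ T := by linarith
  have C0 : c (T) = X + 3 := by
    have e := S.hc (T) (by linarith)
    rw [A0, show T + 1 - (X + 2) = Y + 2 from Nat.sub_eq_of_eq_add (by rw [← hT]; ring)] at e
    linarith
  have A1 : a (T + 1) = X + 2 := by
    have e := S.ha (T) (by linarith)
    rw [C0, show T + 1 - (X + 3) = Y + 1 from Nat.sub_eq_of_eq_add (by rw [← hT]; ring)] at e
    linarith
  have C1 : c (T + 1) = X + 3 := by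
    have e := S.hc (T + 1) (by linarith)
    rw [A1, show T + 1 + 1 - (X + 2) = Y + 3 from Nat.sub_eq_of_eq_add (by rw [← hT]; ring)] at e
    linarith
  have A2 : a (T + 2) = X + 3 := by
    have e := S.ha (T + 1) (by linarith)
    rw [C1, show T + 1 + 1 - (X + 3) = Y + 2 from Nat.sub_eq_of_eq_add (by rw [← hT]; ring), add_assoc T] at e
    simp only [Nat.reduceAdd] at e
    linarith
  have C2 : c (T + 2) = X + 3 := by
    have e := S.hc (T + 2) (by linarith)
    rw [A2, show T + 2 + 1 - (X + 3) = Y + 3 from Nat.sub_eq_of_eq_add (by rw [← hT]; ring)] at e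
    linarith
  have A3 : a (T + 3) = X + 3 := by
    have e := S.ha (T + 2) (by linarith)
    rw [C2, show T + 2 + 1 - (X + 3) = Y + 3 from Nat.sub_eq_of_eq_add (by rw [← hT]; ring), add_assoc T] at e
    simp only [Nat.reduceAdd] at e
    linarith
  exact ⟨A0, A1, A2, A3, C0, C1, C2⟩

def P : ℕ → ℕ
  | 0 => 6
  | 1 => 9
  | 2 => 15
  | k + 3 => P (k + 2) + P k + if k % 2 = 0 then 1 else 3

lemma P_ge (k : ℕ) : k + 2 ≤ P k := by
  induction k using Nat.strong_induction_on with
  | _ k ih =>
    match k with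
    | 0 => simp [P]
    | 1 => simp [P]
    | 2 => simp [P]
    | k + 3 =>
      have h1 := ih (k + 2) (by omega)
      have h2 := ih k (by omega)
      rw [P]
      omega

def F (a c : ℕ → ℕ) (k : ℕ) : Prop :=
  (k % 2 = 0 → FA a c (P (k + 3)) (P k + 1)) ∧ (k % 2 = 1 → FB a c (P (k + 3)) (P k + 2))

lemma Sys.all (S : Sys a c) (h0 : F a c 0) (h1 : F a c 1) (h2 : F a c 2) (k : ℕ) : F a c k := by
  induction k using Nat.strong_induction_on with
  | _ k ih =>
    match k with
    | 0 => exact h0
    | 1 => exact h1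
    | 2 => exact h2
    | k + 3 =>
      have i1 := ih (k + 2) (by omega)
      have i2 := ih k (by omega)
      have g1 := P_ge (k + 3)
      have g2 := P_ge (k + 5)
      have e1 : P (k + 3) = P (k + 2) + P k + if k % 2 = 0 then 1 else 3 := by rw [P]
      have e2 : P (k + 3 + 3) = P (k + 5) + P (k + 3) + if (k + 3) % 2 = 0 then 1 else 3 := by rw [P]
      constructor
      · intro hk
        rw [e2, if_pos hk]
        rw [if_neg (by omega)] at e1
        exact S.stepA (by omega) (by omega) (i2.2 (by omega)) (i1.2 (by omega)) (by omega)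
      · intro hk
        rw [e2, if_neg (by omega)]
        rw [if_pos (by omega)] at e1
        exact S.stepB (by omega) (by omega) (i2.1 (by omega)) (i1.1 (by omega)) (by omega)

lemma P_ratio (k : ℕ) : 1200 ≤ P (k + 16) ∧ 291 * P (k + 16) ≤ 200 * P (k + 17) ∧
    40 * P (k + 17) ≤ 59 * P (k + 16) := by
  induction k using Nat.strong_induction_on with
  | _ k ih =>
    match k with
    | 0 => decide +kernel
    | 1 => decide +kernel
    | k + 2 =>
      have h1 := ih (k + 1) (by omega)
      have h2 := ih k (by omega)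
      have e : P (k + 2 + 17) = P (k + 18) + P (k + 16) + if (k + 16) % 2 = 0 then 1 else 3 := by
        rw [show k + 2 + 17 = (k + 16) + 3 by omega, P]
      simp only [add_assoc, Nat.reduceAdd] at h1 h2 e ⊢
      split_ifs at e <;> omega

def tbl (n : ℕ) : ℕ := ([0, 1, 1, 1, 3, 1, 3, 3, 3, 3, 5, 3, 5, 3, 5, 5, 5, 5, 5, 5, 7, 7, 9, 7, 9, 7, 9, 7, 11, 7, 11, 9, 11, 11, 11, 11, 11, 11, 11, 13, 11, 13, 11, 13, 13, 13, 15, 15, 17, 15, 17, 15, 17, 15, 19, 15, 19, 15, 19, 15, 19, 15, 21, 17, 21, 19, 21, 21, 23, 21, 23, 23, 23, 23, 23, 23, 23, 25, 23, 25, 23, 25, 23, 25, 23, 27, 23, 27, 23, 27, 25, 27, 27, 27, 29, 27, 29, 29, 29, 29, 31, 31, 33, 33, 35, 33, 35, 33] : List ℕ).getD n 0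

lemma tbl_ok : ∀ n < 108, 3 ≤ n →
    (tbl n : ℤ) = tbl (tbl (n - 1)) + tbl (n - tbl (n - 1)) + (-1) ^ n := by
  decide +kernel

/-- The parity-perturbed Conway–Mallows sequence does not satisfy `b(n)/n → 1/(2φ)`. -/
theorem result (b : ℕ → ℤ) (h1 : b 1 = 1) (h2 : b 2 = 1)
    (hrec : ∀ n : ℕ, 3 ≤ n → 1 ≤ b (n - 1) ∧ b (n - 1) ≤ (n : ℤ) - 1 ∧
      b n = b (b (n - 1)).toNat + b (n - (b (n - 1)).toNat) + (-1) ^ n) :
    ¬ Tendsto (fun n : ℕ => (b n : ℝ) / n) atTop (𝓝 (1 / (2 * Real.goldenRatio))) := by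
  intro hlim
  have rng : ∀ n, 1 ≤ n → 1 ≤ b n ∧ b n ≤ n := by
    intro n hn
    rcases Nat.eq_or_lt_of_le hn with rfl | h
    · simp [h1]
    · have := hrec (n + 1) (by omega)
      simp only [Nat.add_one_sub_one] at this
      push_cast at this
      omega
  have odd : ∀ n, 1 ≤ n → b n % 2 = 1 := by
    intro n
    induction n using Nat.strong_induction_on with
    | _ n ih =>
      intro hn
      by_cases h3 : 3 ≤ n
      · obtain ⟨r1, r2, e⟩ := hrec n h3
        have i1 := ih (b (n - 1)).toNat (by omega) (by omega)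
        have i2 := ih (n - (b (n - 1)).toNat) (by omega) (by omega)
        rcases neg_one_pow_eq_or ℤ n with h | h <;> rw [h] at e <;> omega
      · obtain rfl | rfl : n = 1 ∨ n = 2 := by omega
        · simp [h1]
        · simp [h2]
  set a : ℕ → ℕ := fun m => ((b (2 * m - 1)).toNat + 1) / 2 with ha
  set c : ℕ → ℕ := fun m => ((b (2 * m)).toNat + 1) / 2 with hc
  have ea : ∀ m, 1 ≤ m → b (2 * m - 1) = 2 * a m - 1 := by
    intro m hm
    have r := rng (2 * m - 1) (by omega)
    have o := odd (2 * m - 1) (by omega)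
    simp only [ha]
    omega
  have ec : ∀ m, 1 ≤ m → b (2 * m) = 2 * c m - 1 := by
    intro m hm
    have r := rng (2 * m) (by omega)
    have o := odd (2 * m) (by omega)
    simp only [hc]
    omega
  have ra : ∀ m, 1 ≤ m → 1 ≤ a m ∧ a m ≤ m := by
    intro m hm
    have r := rng (2 * m - 1) (by omega)
    have := ea m hm
    omega
  have rc : ∀ m, 1 ≤ m → 1 ≤ c m ∧ c m ≤ m := by
    intro m hm
    have r := rng (2 * m) (by omega)
    have := ec m hm
    omega
  have S : Sys a c := by
    refine ⟨by simp [ha, h1], by simp [hc, h2], ra, rc, fun m hm => ?_, fun m hm => ?_⟩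
    · obtain ⟨-, -, e⟩ := hrec (2 * m) (by omega)
      have r := ra m (by omega)
      have t : (b (2 * m - 1)).toNat = 2 * a m - 1 := by
        have := ea m (by omega)
        omega
      rw [t, show 2 * m - (2 * a m - 1) = 2 * (m + 1 - a m) - 1 by omega, ea _ r.1,
        ea (m + 1 - a m) (by omega), ec m (by omega), pow_mul] at e
      norm_num at e
      omega
    · obtain ⟨-, -, e⟩ := hrec (2 * m + 1) (by omega)
      have r := rc m (by omega)
      have t : (b (2 * m + 1 - 1)).toNat = 2 * c m - 1 := by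
        have := ec m (by omega)
        simp only [Nat.add_one_sub_one]
        omega
      have u := ea (m + 1) (by omega)
      rw [show 2 * (m + 1) - 1 = 2 * m + 1 by omega] at u
      rw [t, show 2 * m + 1 - (2 * c m - 1) = 2 * (m + 1 - c m) by omega, ea _ r.1,
        ec (m + 1 - c m) (by omega), u, pow_succ, pow_mul] at e
      norm_num at e
      omega
  have htbl : ∀ n, 1 ≤ n → n < 108 → b n = tbl n := by
    intro n
    induction n using Nat.strong_induction_on with
    | _ n ih =>
      intro hn hn2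
      by_cases h3 : 3 ≤ n
      · obtain ⟨r1, r2, e⟩ := hrec n h3
        have i0 := ih (n - 1) (by omega) (by omega) (by omega)
        have i1 := ih (b (n - 1)).toNat (by omega) (by omega) (by omega)
        have i2 := ih (n - (b (n - 1)).toNat) (by omega) (by omega) (by omega)
        rw [e, i1, i2, i0, tbl_ok n hn2 h3]
        simp
      · obtain rfl | rfl : n = 1 ∨ n = 2 := by omega
        · rw [h1]; rfl
        · rw [h2]; rfl
  have ta : ∀ m, 1 ≤ m → m < 54 → a m = (tbl (2 * m - 1) + 1) / 2 := by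
    intro m hm hm2
    simp only [ha]
    rw [htbl _ (by omega) (by omega)]
    simp
  have tc : ∀ m, 1 ≤ m → m < 54 → c m = (tbl (2 * m) + 1) / 2 := by
    intro m hm hm2
    simp only [hc]
    rw [htbl _ (by omega) (by omega)]
    simp
  have f0 : F a c 0 := by
    refine ⟨fun _ => ?_, fun h => by omega⟩
    change FA a c 22 7
    unfold FA
    rw [ta _ (by omega) (by omega), ta _ (by omega) (by omega), ta _ (by omega) (by omega),
      tc _ (by omega) (by omega), tc _ (by omega) (by omega), tc _ (by omega) (by omega)]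
    decide +kernel
  have f1 : F a c 1 := by
    refine ⟨fun h => by omega, fun _ => ?_⟩
    change FB a c 34 11
    unfold FB
    rw [ta _ (by omega) (by omega), ta _ (by omega) (by omega), ta _ (by omega) (by omega),
      ta _ (by omega) (by omega),
      tc _ (by omega) (by omega), tc _ (by omega) (by omega), tc _ (by omega) (by omega)]
    decide +kernel
  have f2 : F a c 2 := by
    refine ⟨fun _ => ?_, fun h => by omega⟩
    change FA a c 50 16
    unfold FA
    rw [ta _ (by omega) (by omega), ta _ (by omega) (by omega), ta _ (by omega) (by omega),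
      tc _ (by omega) (by omega), tc _ (by omega) (by omega), tc _ (by omega) (by omega)]
    decide +kernel
  have hlt : (1 / (2 * Real.goldenRatio) : ℝ) < 0.31 := by
    have h5 : (2.236 : ℝ) < √5 := by
      rw [Real.lt_sqrt (by norm_num)]
      norm_num
    rw [div_lt_iff₀ (by have := Real.goldenRatio_pos; linarith)]
    unfold Real.goldenRatio
    linarith
  obtain ⟨N, hN⟩ := eventually_atTop.1 (hlim.eventually (gt_mem_nhds hlt))
  set k := 2 * N + 17
  have hF := (S.all f0 f1 f2 k).2 (by omega)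
  have g := P_ge (k + 3)
  have e := ec (P (k + 3)) (by omega)
  rw [hF.2.2.2.2.1] at e
  have hn := hN (2 * P (k + 3)) (by omega)
  rw [e, div_lt_iff₀ (by
    have : 0 < 2 * P (k + 3) := by omega
    exact_mod_cast this)] at hn
  have r1 := P_ratio (2 * N + 1)
  have r2 := P_ratio (2 * N + 2)
  have r3 := P_ratio (2 * N + 3)
  have hk : 31 * P (k + 3) ≤ 100 * P k := by
    simp only [k, add_assoc, Nat.reduceAdd] at r1 r2 r3 ⊢
    omega
  have hkR : (31 : ℝ) * P (k + 3) ≤ 100 * P k := by exact_mod_cast hk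
  push_cast at hn
  linarith

end Pool.Agent.Results.MP_c3a542_nt.NoLimit
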